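import Mathlib
import Pool.Agent.Helper378.PD.Final
import Pool.Agent.Helper378.PD.Upper

/-!
# All dimensions, and the growth constant
-/

set_option autoImplicit false

namespace Pool.Agent.Y357.PD

open Filter Topology

/-- `m` colours suffice to colour `ℝ ^ d` without monochromatic pairs at a distance in `H` -/
def Good (d : ℕ) (H : Finset ℝ) (m : ℕ) : Prop :=
  ∃ col : EuclideanSpace ℝ (Fin d) → Fin m, ∀ x y, dist x y ∈ H → col x ≠ col y

theorem good_of_fintype {d : ℕ} {H : Finset ℝ} {α : Type} [Fintype α]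
    (col : EuclideanSpace ℝ (Fin d) → α) (h : ∀ x y, dist x y ∈ H → col x ≠ col y) :
    Good d H (Fintype.card α) :=
  ⟨fun x => Fintype.equivFin α (col x), fun x y hxy he =>
    h x y hxy ((Fintype.equivFin α).injective he)⟩

theorem good_mul {d : ℕ} {H₁ H₂ : Finset ℝ} {m₁ m₂ : ℕ} [DecidableEq ℝ] (h₁ : Good d H₁ m₁)
    (h₂ : Good d H₂ m₂) : Good d (H₁ ∪ H₂) (m₁ * m₂) := by
  obtain ⟨c₁, hc₁⟩ := h₁
  obtain ⟨c₂, hc₂⟩ := h₂
  have := good_of_fintype (d := d) (H := H₁ ∪ H₂) (fun x => (c₁ x, c₂ x)) (by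
    intro x y hxy he
    rw [Finset.mem_union] at hxy
    rw [Prod.mk.injEq] at he
    rcases hxy with h | h
    · exact hc₁ x y h he.1
    · exact hc₂ x y h he.2)
  simpa using this

theorem good_one {d : ℕ} (hd : 1 ≤ d) {h : ℝ} (hh : 0 < h) : Good d {h} ((d + 1) ^ d) := by
  have hd0 : (0 : ℝ) < d := by exact_mod_cast hd
  have hd1 : (1 : ℝ) ≤ d := by exact_mod_cast hd
  have hsd : 0 < Real.sqrt d := Real.sqrt_pos.2 hd0
  set s : ℝ := Real.sqrt d / h with hs
  have hs0 : 0 < s := by positivity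
  have := good_of_fintype (d := d) (H := {h})
    (fun x : EuclideanSpace ℝ (Fin d) => fun i : Fin d => ((⌊x i * s⌋ : ℤ) : ZMod (d + 1))) (by
    intro x y hxy he
    rw [Finset.mem_singleton] at hxy
    have hco : ∀ i, |x i - y i| ≤ h := by
      intro i
      rw [← hxy, ← Real.dist_eq, EuclideanSpace.dist_eq]
      apply Real.le_sqrt_of_sq_le
      exact Finset.single_le_sum (f := fun i => dist (x i) (y i) ^ 2)
        (fun i _ => sq_nonneg _) (Finset.mem_univ i)
    have heq : ∀ i, ⌊x i * s⌋ = ⌊y i * s⌋ := by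
      intro i
      have h1 := congrFun he i
      simp only at h1
      rw [ZMod.intCast_eq_intCast_iff_dvd_sub] at h1
      obtain ⟨c, hc⟩ := h1
      by_contra hne
      have hc0 : c ≠ 0 := by
        rintro rfl
        rw [mul_zero] at hc
        omega
      have habs : (d : ℝ) + 1 ≤ |((⌊y i * s⌋ : ℤ) : ℝ) - (⌊x i * s⌋ : ℤ)| := by
        have h2 : ((⌊y i * s⌋ : ℤ) : ℝ) - (⌊x i * s⌋ : ℤ) = ((d : ℝ) + 1) * c := by
          have := congrArg (fun z : ℤ => (z : ℝ)) hc
          push_cast at this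
          exact this
        rw [h2, abs_mul, abs_of_pos (by positivity)]
        have h3 : (1 : ℝ) ≤ |(c : ℝ)| := by
          have : (1 : ℤ) ≤ |c| := Int.one_le_abs hc0
          exact_mod_cast this
        nlinarith
      have f1 := Int.floor_le (x i * s)
      have f2 := Int.lt_floor_add_one (x i * s)
      have f3 := Int.floor_le (y i * s)
      have f4 := Int.lt_floor_add_one (y i * s)
      have h4 : (d : ℝ) < |x i * s - y i * s| := by
        rcases le_abs.1 habs with h5 | h5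
        · exact lt_abs.2 (Or.inr (by linarith))
        · exact lt_abs.2 (Or.inl (by linarith))
      rw [← sub_mul, abs_mul, abs_of_pos hs0] at h4
      have h5 : |x i - y i| * s ≤ h * s := mul_le_mul_of_nonneg_right (hco i) hs0.le
      have h6 : h * s = Real.sqrt d := by rw [hs]; field_simp
      have h7 : Real.sqrt d ≤ d := by
        rw [Real.sqrt_le_left hd0.le]
        nlinarith
      linarith
    have hlt : ∀ i, dist (x i) (y i) ^ 2 < (s⁻¹) ^ 2 := by
      intro i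
      have f1 := Int.floor_le (x i * s)
      have f2 := Int.lt_floor_add_one (x i * s)
      have f3 := Int.floor_le (y i * s)
      have f4 := Int.lt_floor_add_one (y i * s)
      rw [heq i] at f1 f2
      have h4 : |x i * s - y i * s| < 1 := by
        rw [abs_lt]
        constructor <;> linarith
      rw [← sub_mul, abs_mul, abs_of_pos hs0] at h4
      rw [Real.dist_eq]
      have h5 : |x i - y i| < s⁻¹ := by
        rw [← one_div, lt_div_iff₀ hs0]
        exact h4
      exact pow_lt_pow_left₀ h5 (abs_nonneg _) (by norm_num)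
    have hsum : ∑ i, dist (x i) (y i) ^ 2 < ∑ _i : Fin d, (s⁻¹) ^ 2 :=
      Finset.sum_lt_sum_of_nonempty ⟨⟨0, hd⟩, Finset.mem_univ _⟩ fun i _ => hlt i
    have hS : ∑ _i : Fin d, (s⁻¹) ^ 2 = h ^ 2 := by
      rw [Finset.sum_const, Finset.card_univ, Fintype.card_fin, nsmul_eq_mul, hs]
      have : Real.sqrt d ^ 2 = d := Real.sq_sqrt hd0.le
      rw [inv_div, div_pow, this]
      field_simp
    rw [hS] at hsum
    have h8 : h ^ 2 = ∑ i, dist (x i) (y i) ^ 2 := by
      rw [← hxy, EuclideanSpace.dist_eq, Real.sq_sqrt (Finset.sum_nonneg fun i _ => sq_nonneg _)]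
    linarith)
  have hcard : Fintype.card (Fin d → ZMod (d + 1)) = (d + 1) ^ d := by
    rw [Fintype.card_fun, Fintype.card_fin, ZMod.card]
  rw [hcard] at this
  exact this

theorem good_pow {d C : ℕ} (hC : ∀ h : ℝ, 0 < h → Good d {h} C) (H : Finset ℝ)
    (hH : ∀ h ∈ H, 0 < h) : Good d H (C ^ H.card) := by
  classical
  induction H using Finset.induction_on with
  | empty =>
    exact ⟨fun _ => ⟨0, by simp⟩, fun x y h => by simp at h⟩
  | insert a s ha ih =>
    rw [Finset.card_insert_of_notMem ha, pow_succ']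
    have h1 := hC a (hH a (Finset.mem_insert_self _ _))
    have h2 := ih fun h hh => hH h (Finset.mem_insert_of_mem hh)
    have := good_mul h1 h2
    rwa [← Finset.insert_eq] at this

theorem good_seven {h : ℝ} (hh : 0 < h) : Good 2 {h} 7 := by
  obtain ⟨col, hcol⟩ := Pool.Agent.Helper378.PD.upper {h} (by simpa using hh)
  have := good_of_fintype (d := 2) (H := {h}) col hcol
  simpa using this

/-- the inclusion of the plane in `ℝ ^ (m + 2)` -/
noncomputable def incl (m : ℕ) (x : EuclideanSpace ℝ (Fin 2)) : EuclideanSpace ℝ (Fin (m + 2)) :=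
  WithLp.toLp 2 (fun i : Fin (m + 2) => if i.val = 0 then x 0 else if i.val = 1 then x 1 else 0)

theorem dist_incl (m : ℕ) (x y : EuclideanSpace ℝ (Fin 2)) :
    dist (incl m x) (incl m y) = dist x y := by
  rw [EuclideanSpace.dist_eq, EuclideanSpace.dist_eq]
  congr 1
  rw [Fin.sum_univ_succ, Fin.sum_univ_succ, Fin.sum_univ_two]
  have h0 : ∀ i : Fin m, dist ((incl m x) i.succ.succ) ((incl m y) i.succ.succ) ^ 2 = 0 := by
    intro i
    simp [incl]
  rw [Finset.sum_eq_zero fun i _ => h0 i]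
  simp [incl]

theorem lower_dim {d : ℕ} (hd : 2 ≤ d) (k : ℕ) : ∃ H : Finset ℝ, H.card = k ∧
    (∀ h ∈ H, 0 < h) ∧ ∀ n, Good d H n → 2 ^ k ≤ n := by
  obtain ⟨m, rfl⟩ : ∃ m, d = m + 2 := ⟨d - 2, by omega⟩
  obtain ⟨H, h1, h2, h3⟩ := Pool.Agent.Helper378.PD.final k
  refine ⟨H, h1, h2, ?_⟩
  rintro n ⟨col, hcol⟩
  refine h3 n (fun x => col (incl m x)) ?_
  intro x y hxy
  apply hcol
  rw [dist_incl]
  exact hxy

/-- the largest chromatic number of a graph given by `k` distances in `ℝ ^ d` -/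
noncomputable def f (d k : ℕ) : ℕ :=
  sSup {n : ℕ | ∃ H : Finset ℝ, H.card = k ∧ (∀ h ∈ H, 0 < h) ∧ IsLeast {m : ℕ | Good d H m} n}

theorem exists_least {d C : ℕ} (hC : ∀ h : ℝ, 0 < h → Good d {h} C) (H : Finset ℝ)
    (hH : ∀ h ∈ H, 0 < h) : ∃ n, IsLeast {m : ℕ | Good d H m} n ∧ n ≤ C ^ H.card := by
  have hmem : C ^ H.card ∈ {m : ℕ | Good d H m} := good_pow hC H hH
  exact ⟨sInf {m : ℕ | Good d H m}, ⟨Nat.sInf_mem ⟨_, hmem⟩, fun m hm => Nat.sInf_le hm⟩,
    Nat.sInf_le hmem⟩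

theorem f_greatest {d C : ℕ} (hC : ∀ h : ℝ, 0 < h → Good d {h} C) (k : ℕ) :
    IsGreatest {n : ℕ | ∃ H : Finset ℝ, H.card = k ∧ (∀ h ∈ H, 0 < h) ∧
      IsLeast {m : ℕ | Good d H m} n} (f d k) ∧ f d k ≤ C ^ k := by
  have hb : ∀ n ∈ {n : ℕ | ∃ H : Finset ℝ, H.card = k ∧ (∀ h ∈ H, 0 < h) ∧
      IsLeast {m : ℕ | Good d H m} n}, n ≤ C ^ k := by
    rintro n ⟨H, hk, hH, hl⟩
    obtain ⟨n', h1, h2⟩ := exists_least hC H hH
    rw [hl.unique h1, ← hk]
    exact h2
  have hne : {n : ℕ | ∃ H : Finset ℝ, H.card = k ∧ (∀ h ∈ H, 0 < h) ∧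
      IsLeast {m : ℕ | Good d H m} n}.Nonempty := by
    have hH : ∀ h ∈ (Finset.range k).image (fun i : ℕ => (i : ℝ) + 1), (0 : ℝ) < h := by
      intro h hh
      obtain ⟨i, -, rfl⟩ := Finset.mem_image.1 hh
      positivity
    obtain ⟨n, hn, -⟩ := exists_least hC _ hH
    refine ⟨n, _, ?_, hH, hn⟩
    rw [Finset.card_image_of_injective, Finset.card_range]
    intro a b hab
    simp only at hab
    exact_mod_cast (add_right_cancel hab)
  have hbdd : BddAbove {n : ℕ | ∃ H : Finset ℝ, H.card = k ∧ (∀ h ∈ H, 0 < h) ∧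
      IsLeast {m : ℕ | Good d H m} n} := ⟨_, hb⟩
  exact ⟨⟨Nat.sSup_mem hne hbdd, fun m hm => le_csSup hbdd hm⟩, hb _ (Nat.sSup_mem hne hbdd)⟩

theorem f_mul {d C : ℕ} (hC : ∀ h : ℝ, 0 < h → Good d {h} C) (k l : ℕ) :
    f d (k + l) ≤ f d k * f d l := by
  classical
  obtain ⟨H, hk, hH, hl⟩ := (f_greatest hC (k + l)).1.1
  obtain ⟨H₁, hs, hc⟩ := Finset.exists_subset_card_eq (show k ≤ H.card by omega)
  have hH₁ : ∀ h ∈ H₁, 0 < h := fun h hh => hH h (hs hh)
  have hH₂ : ∀ h ∈ H \ H₁, 0 < h := fun h hh => hH h (Finset.sdiff_subset hh)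
  obtain ⟨n₁, h1, -⟩ := exists_least hC H₁ hH₁
  obtain ⟨n₂, h2, -⟩ := exists_least hC (H \ H₁) hH₂
  have e1 : n₁ ≤ f d k := (f_greatest hC k).1.2 ⟨H₁, hc, hH₁, h1⟩
  have e2 : n₂ ≤ f d l := (f_greatest hC l).1.2 ⟨H \ H₁, by
    rw [Finset.card_sdiff_of_subset hs]; omega, hH₂, h2⟩
  have h3 := good_mul h1.1 h2.1
  rw [Finset.union_sdiff_of_subset hs] at h3
  exact (hl.2 h3).trans (Nat.mul_le_mul e1 e2)

theorem two_pow_le {d C : ℕ} (hd : 2 ≤ d) (hC : ∀ h : ℝ, 0 < h → Good d {h} C) (k : ℕ) :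
    2 ^ k ≤ f d k := by
  obtain ⟨H, h1, h2, h3⟩ := lower_dim hd k
  obtain ⟨n, hn, -⟩ := exists_least hC H h2
  exact (h3 n hn.1).trans ((f_greatest hC k).1.2 ⟨H, h1, h2, hn⟩)

theorem growth {d C : ℕ} (hd : 2 ≤ d) (hC : ∀ h : ℝ, 0 < h → Good d {h} C) :
    ∃ L : ℝ, 2 ≤ L ∧ L ≤ f d 1 ∧
      Tendsto (fun k : ℕ => (f d k : ℝ) ^ (1 / (k : ℝ))) atTop (𝓝 L) ∧
      ∀ k, L ^ k ≤ f d k := by
  have hpos : ∀ k, (0 : ℝ) < f d k := by
    intro k
    have : 0 < f d k := lt_of_lt_of_le (by positivity) (two_pow_le hd hC k)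
    exact_mod_cast this
  have hsub : Subadditive fun k => Real.log (f d k) := by
    intro m n
    rw [← Real.log_mul (hpos m).ne' (hpos n).ne']
    apply Real.log_le_log (hpos _)
    exact_mod_cast f_mul hC m n
  have hge : ∀ k : ℕ, k ≠ 0 → Real.log 2 ≤ Real.log (f d k) / k := by
    intro k hk
    have hk0 : (0 : ℝ) < k := by exact_mod_cast Nat.pos_of_ne_zero hk
    rw [le_div_iff₀ hk0, mul_comm, ← Real.log_pow]
    apply Real.log_le_log (by positivity)
    exact_mod_cast two_pow_le hd hC k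
  have hbdd : BddBelow (Set.range fun n : ℕ => Real.log (f d n) / n) := by
    refine ⟨0, ?_⟩
    rintro _ ⟨k, rfl⟩
    rcases Nat.eq_zero_or_pos k with hk | hk
    · subst hk; simp
    · exact (Real.log_pos (by norm_num)).le.trans (hge k hk.ne')
  have hlim := hsub.tendsto_lim hbdd
  refine ⟨Real.exp hsub.lim, ?_, ?_, ?_, ?_⟩
  · have h1 : Real.log 2 ≤ hsub.lim := by
      refine ge_of_tendsto hlim ?_
      filter_upwards [eventually_ne_atTop 0] with k hk
      exact hge k hk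
    calc (2 : ℝ) = Real.exp (Real.log 2) := (Real.exp_log (by norm_num)).symm
      _ ≤ _ := Real.exp_le_exp.2 h1
  · have h1 := hsub.lim_le_div hbdd one_ne_zero
    rw [Nat.cast_one, div_one] at h1
    calc Real.exp hsub.lim ≤ Real.exp (Real.log (f d 1)) := Real.exp_le_exp.2 h1
      _ = f d 1 := Real.exp_log (hpos 1)
  · have h1 := (Real.continuous_exp.tendsto _).comp hlim
    refine h1.congr fun k => ?_
    simp only [Function.comp]
    rw [Real.rpow_def_of_pos (hpos k)]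
    congr 1
    ring
  · intro k
    rcases Nat.eq_zero_or_pos k with hk | hk
    · subst hk
      have := two_pow_le hd hC 0
      rw [pow_zero] at this ⊢
      exact_mod_cast this
    · have h1 := hsub.lim_le_div hbdd hk.ne'
      have hk0 : (0 : ℝ) < k := by exact_mod_cast hk
      rw [le_div_iff₀ hk0] at h1
      rw [← Real.exp_nat_mul, mul_comm]
      calc Real.exp (hsub.lim * k) ≤ Real.exp (Real.log (f d k)) := Real.exp_le_exp.2 h1
        _ = f d k := Real.exp_log (hpos k)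

end Pool.Agent.Y357.PD
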