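import Mathlib
import Pool.Agent.Helper378.PD.Base
import Pool.Agent.Helper378.PD.A1
import Pool.Agent.Helper378.PD.A2

/-!
# Finite sets of the plane in which sets without `k` distances have density at most `2 ^ (-k) + ε`
-/

set_option autoImplicit false

namespace Pool.Agent.Y357.PD

open Pool.Agent.Helper378.PD Pool.Agent.Helper378.PD.A2
open Filter Topology

/-- the average over rotations of a function, normalised -/
noncomputable def rav (Ψ : K → ℝ) (Mt : (Kˣ → ℝ) → ℝ) (v : K) : ℝ :=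
  Mt (fun t => Ψ (u t * v)) * (Ψ 0)⁻¹

theorem rav_pd {Ψ : K → ℝ} {C : ℝ} (hC : ∀ v, |Ψ v| ≤ C) (hpos : 0 < Ψ 0)
    (hpsd : ∀ (m : ℕ) (x : Fin m → K) (a : Fin m → ℝ),
      0 ≤ ∑ i, ∑ j, a i * a j * Ψ (x i - x j))
    {Mt : (Kˣ → ℝ) → ℝ} (ht : IsMean Mt) : IsPD (rav Ψ Mt) := by
  refine ⟨?_, ?_, ?_⟩
  · unfold rav
    simp only [mul_zero]
    rw [ht.const, mul_inv_cancel₀ hpos.ne']
  · intro v w hvw
    unfold rav
    congr 1
    by_cases hw : w = 0
    · have hv : v = 0 := by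
        rw [hw] at hvw
        have : ‖(v : ℂ)‖ = 0 := by rw [hvw]; simp
        exact Subtype.ext (norm_eq_zero.1 this)
      rw [hv, hw]
    · have hw' : (w : ℂ) ≠ 0 := fun h => hw (Subtype.ext h)
      obtain ⟨s, hs⟩ := u_surj (v / w) (by
        rw [show (((v / w : K)) : ℂ) = (v : ℂ) / (w : ℂ) from rfl, norm_div, hvw,
          div_self (norm_ne_zero_iff.2 hw')])
      have h1 : v = u s * w := by rw [hs, div_mul_cancel₀ _ hw]
      have h2 := ht.inv (fun t => Ψ (u t * w)) C s (fun t => hC _)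
      rw [← h2]
      congr 1
      funext t
      rw [u_mul, h1]
      congr 1
      ring
  · intro m x a
    unfold rav
    have hb : ∀ (i j : Fin m) (t : Kˣ), |a i * a j * Ψ (u t * (x i - x j))| ≤
        |a i * a j| * C := by
      intro i j t
      rw [abs_mul]
      exact mul_le_mul_of_nonneg_left (hC _) (abs_nonneg _)
    have e1 : ∑ i, ∑ j, a i * a j * (Mt (fun t => Ψ (u t * (x i - x j))) * (Ψ 0)⁻¹) =
        Mt (fun t => ∑ i, ∑ j, a i * a j * Ψ (u t * (x i - x j))) * (Ψ 0)⁻¹ := by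
      rw [ht.sum Finset.univ (fun i t => ∑ j, a i * a j * Ψ (u t * (x i - x j)))
        (fun i => ∑ j, |a i * a j| * C) (fun i t => (Finset.abs_sum_le_sum_abs _ _).trans
        (Finset.sum_le_sum fun j _ => hb i j t)), Finset.sum_mul]
      refine Finset.sum_congr rfl fun i _ => ?_
      rw [ht.sum Finset.univ (fun j t => a i * a j * Ψ (u t * (x i - x j)))
        (fun j => |a i * a j| * C) (fun j t => hb i j t), Finset.sum_mul]
      refine Finset.sum_congr rfl fun j _ => ?_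
      rw [ht.smul _ C (a i * a j) (fun t => hC _)]
      ring
    rw [e1]
    refine mul_nonneg (ht.nonneg _ (∑ i, ∑ j, |a i * a j| * C) (fun t => ?_) (fun t => ?_))
      (inv_nonneg.2 hpos.le)
    · refine (Finset.abs_sum_le_sum_abs _ _).trans (Finset.sum_le_sum fun i _ => ?_)
      exact (Finset.abs_sum_le_sum_abs _ _).trans (Finset.sum_le_sum fun j _ => hb i j t)
    · have := hpsd m (fun i => u t * x i) a
      simpa only [mul_sub] using this

/-- the point `(p + q i) / D` -/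
noncomputable def gp (D : ℕ) (p q : ℤ) : K :=
  ⟨(((p : ℚ) / D : ℚ) : ℂ) + (((q : ℚ) / D : ℚ) : ℂ) * Complex.I, (p : ℚ) / D, (q : ℚ) / D, rfl⟩

theorem gp_add (D : ℕ) (p q p' q' : ℤ) : gp D p q + gp D p' q' = gp D (p + p') (q + q') := by
  apply Subtype.ext
  show ((gp D p q : K) : ℂ) + ((gp D p' q' : K) : ℂ) = ((gp D (p + p') (q + q') : K) : ℂ)
  unfold gp
  push_cast
  ring

theorem gp_inj {D : ℕ} (hD : 0 < D) {p q p' q' : ℤ} (h : gp D p q = gp D p' q') :
    p = p' ∧ q = q' := by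
  have h1 : ((gp D p q : K) : ℂ) = ((gp D p' q' : K) : ℂ) := congrArg (fun z : K => (z : ℂ)) h
  unfold gp at h1
  have hD' : (D : ℝ) ≠ 0 := by exact_mod_cast hD.ne'
  have hr := congrArg Complex.re h1
  have hi := congrArg Complex.im h1
  simp only [Complex.add_re, Complex.mul_re, Complex.I_re, Complex.I_im, Complex.ratCast_re,
    Complex.ratCast_im, Complex.add_im, Complex.mul_im] at hr hi
  push_cast at hr hi
  constructor
  · have : (p : ℝ) / D = p' / D := by linarith
    field_simp at this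
    exact_mod_cast this
  · have : (q : ℝ) / D = q' / D := by linarith
    field_simp at this
    exact_mod_cast this

theorem gp_scale {D e : ℕ} (he : 0 < e) (p q : ℤ) : gp (D * e) (p * e) (q * e) = gp D p q := by
  have he' : (e : ℚ) ≠ 0 := by exact_mod_cast he.ne'
  apply Subtype.ext
  unfold gp
  have h1 : (((p * e : ℤ) : ℚ) / ((D * e : ℕ) : ℚ)) = (p : ℚ) / D := by
    push_cast
    exact mul_div_mul_right _ _ he'
  have h2 : (((q * e : ℤ) : ℚ) / ((D * e : ℕ) : ℚ)) = (q : ℚ) / D := by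
    push_cast
    exact mul_div_mul_right _ _ he'
  simp only
  rw [h1, h2]

theorem exists_gp (z : K) : ∃ D : ℕ, 0 < D ∧ ∃ p q : ℤ, z = gp D p q := by
  obtain ⟨z, a, b, hz⟩ := z
  refine ⟨a.den * b.den, Nat.mul_pos a.den_pos b.den_pos, a.num * b.den, b.num * a.den, ?_⟩
  have ha' : (a.den : ℚ) ≠ 0 := by exact_mod_cast a.den_ne_zero
  have hb' : (b.den : ℚ) ≠ 0 := by exact_mod_cast b.den_ne_zero
  apply Subtype.ext
  unfold gp
  have h1 : (((a.num * b.den : ℤ) : ℚ) / ((a.den * b.den : ℕ) : ℚ)) = a := by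
    push_cast
    rw [mul_div_mul_right _ _ hb', Rat.num_div_den]
  have h2 : (((b.num * a.den : ℤ) : ℚ) / ((a.den * b.den : ℕ) : ℚ)) = b := by
    push_cast
    rw [mul_comm (a.den : ℚ), mul_div_mul_right _ _ ha', Rat.num_div_den]
  simp only
  rw [h1, h2, hz]

theorem common_den (S : Finset K) : ∃ D : ℕ, 0 < D ∧ ∀ s ∈ S, ∃ p q : ℤ, s = gp D p q := by
  classical
  induction S using Finset.induction_on with
  | empty => exact ⟨1, one_pos, by simp⟩
  | insert s S hs ih =>
    obtain ⟨D, hD, hC⟩ := ih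
    obtain ⟨e, he, p, q, hpq⟩ := exists_gp s
    refine ⟨D * e, Nat.mul_pos hD he, ?_⟩
    intro t ht
    rw [Finset.mem_insert] at ht
    rcases ht with rfl | ht
    · refine ⟨p * D, q * D, ?_⟩
      rw [mul_comm D e, gp_scale hD, hpq]
    · obtain ⟨p', q', h'⟩ := hC t ht
      refine ⟨p' * e, q' * e, ?_⟩
      rw [gp_scale he, h']

theorem foelner (S : Finset K) (η : ℝ) (hη : 0 < η) : ∃ V W : Finset K, V.Nonempty ∧
    (∀ v ∈ V, ∀ s ∈ S, v + s ∈ W) ∧ (W.card : ℝ) ≤ (1 + η) * V.card := by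
  classical
  obtain ⟨D, hD, hS⟩ := common_den S
  choose! p q hpq using hS
  set C : ℕ := S.sup (fun s => (p s).natAbs + (q s).natAbs) with hC
  have hpC : ∀ s ∈ S, |p s| ≤ C ∧ |q s| ≤ C := by
    intro s hs
    have h1 : (p s).natAbs + (q s).natAbs ≤ C :=
      Finset.le_sup (f := fun s => (p s).natAbs + (q s).natAbs) hs
    rw [Int.abs_eq_natAbs, Int.abs_eq_natAbs]
    constructor <;> exact_mod_cast (by omega)
  obtain ⟨R, hR⟩ := exists_nat_ge ((4 * (C : ℝ) + 4 * C ^ 2) / η + 1)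
  have hC0 : (0 : ℝ) ≤ (4 * (C : ℝ) + 4 * C ^ 2) / η := by positivity
  have hR1 : (1 : ℝ) ≤ R := by linarith
  have hRpos : 0 < R := by
    have : (0 : ℝ) < R := by linarith
    exact_mod_cast this
  set V : Finset K := (Finset.Icc (0 : ℤ) (R - 1) ×ˢ Finset.Icc (0 : ℤ) (R - 1)).image
    (fun x => gp D x.1 x.2) with hV
  set W : Finset K := (Finset.Icc (-(C : ℤ)) (R - 1 + C) ×ˢ
    Finset.Icc (-(C : ℤ)) (R - 1 + C)).image (fun x => gp D x.1 x.2) with hW
  have hVc : V.card = R * R := by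
    rw [hV, Finset.card_image_of_injective, Finset.card_product, Int.card_Icc]
    · congr 1 <;> omega
    · intro x y hxy
      obtain ⟨h1, h2⟩ := gp_inj hD hxy
      exact Prod.ext h1 h2
  have hWc : W.card ≤ (R + 2 * C) * (R + 2 * C) := by
    rw [hW]
    refine Finset.card_image_le.trans ?_
    rw [Finset.card_product, Int.card_Icc]
    apply le_of_eq
    congr 1 <;> omega
  refine ⟨V, W, ?_, ?_, ?_⟩
  · apply Finset.card_pos.1
    rw [hVc]
    exact Nat.mul_pos hRpos hRpos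
  · intro v hv s hs
    rw [hV, Finset.mem_image] at hv
    obtain ⟨x, hx, rfl⟩ := hv
    rw [Finset.mem_product, Finset.mem_Icc, Finset.mem_Icc] at hx
    have h1 := hpC s hs
    rw [abs_le, abs_le] at h1
    rw [hpq s hs, gp_add, hW, Finset.mem_image]
    refine ⟨(x.1 + p s, x.2 + q s), ?_, rfl⟩
    rw [Finset.mem_product, Finset.mem_Icc, Finset.mem_Icc]
    dsimp only
    omega
  · rw [hVc]
    have h1 : (W.card : ℝ) ≤ ((R : ℝ) + 2 * C) * (R + 2 * C) := by exact_mod_cast hWc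
    refine h1.trans ?_
    push_cast
    have h2 : (4 * (C : ℝ) + 4 * C ^ 2) ≤ η * R := by
      have : (4 * (C : ℝ) + 4 * C ^ 2) / η ≤ R := by linarith
      rw [div_le_iff₀ hη] at this
      linarith
    have h3 : (0 : ℝ) ≤ C := by positivity
    have h4 : 4 * (C : ℝ) * R + 4 * C ^ 2 ≤ (4 * (C : ℝ) + 4 * C ^ 2) * R := by
      nlinarith [mul_nonneg (sq_nonneg (C : ℝ)) (sub_nonneg.2 hR1)]
    nlinarith

end Pool.Agent.Y357.PD
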