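import Mathlib
import Pool.Agent.Helper378.PD.Base
import Pool.Agent.Helper378.PD.A1
import Pool.Agent.Helper378.PD.A2
import Pool.Agent.Y357.PD.Frac

/-!
# The density theorem for the group `ℚ(i)`
-/

set_option autoImplicit false

namespace Pool.Agent.Y357.PD

open Pool.Agent.Helper378.PD Pool.Agent.Helper378.PD.A2
open Filter Topology

open Classical in
/-- `|A ∩ (A - v)| / |V|` -/
noncomputable def corr (A V : Finset K) (v : K) : ℝ :=
  ((A.filter fun x => x + v ∈ A).card : ℝ) / V.card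

theorem corr_zero (A V : Finset K) : corr A V 0 = (A.card : ℝ) / V.card := by
  unfold corr
  congr 2
  simp

theorem corr_mem {A V : Finset K} (hA : A ⊆ V) (v : K) : corr A V v ∈ Set.Icc (0 : ℝ) 1 := by
  classical
  unfold corr
  refine ⟨by positivity, ?_⟩
  rcases Nat.eq_zero_or_pos V.card with h | h
  · rw [h]; simp
  · rw [div_le_one (by exact_mod_cast h)]
    exact_mod_cast (Finset.card_filter_le _ _).trans (Finset.card_le_card hA)

/-- the finite inequality behind positive definiteness -/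
theorem corr_psd {A V W S : Finset K} (hA : A ⊆ V) (hV : V.Nonempty)
    (hW : ∀ v ∈ V, ∀ s ∈ S, v + s ∈ W) {η : ℝ} (hWc : (W.card : ℝ) ≤ (1 + η) * V.card)
    {m : ℕ} (x : Fin m → K) (a : Fin m → ℝ) (hS : ∀ l, -x l ∈ S) :
    (∑ l, a l) ^ 2 * corr A V 0 ^ 2 ≤
      (1 + η) * ∑ i, ∑ j, a i * a j * corr A V (x i - x j) := by
  classical
  have hVc : (0 : ℝ) < V.card := by exact_mod_cast Finset.card_pos.2 hV
  let I : K → ℝ := fun z => if z ∈ A then 1 else 0
  have hI : ∀ z, I z = if z ∈ A then 1 else 0 := fun z => rfl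
  -- sums of translates
  have hsum1 : ∀ l, ∑ z ∈ W, I (z + x l) = A.card := by
    intro l
    rw [Finset.card_eq_sum_ones]
    push_cast
    have h1 : ∑ z ∈ W, I (z + x l) = ∑ z ∈ W.filter (fun z => z + x l ∈ A), (1 : ℝ) := by
      rw [Finset.sum_filter]
    rw [h1]
    refine Finset.sum_bij' (fun z _ => z + x l) (fun y _ => y + -x l) ?_ ?_ ?_ ?_ ?_
    · intro z hz; exact (Finset.mem_filter.1 hz).2
    · intro y hy
      rw [Finset.mem_filter]
      refine ⟨hW y (hA hy) _ (hS l), ?_⟩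
      rw [neg_add_cancel_right]
      exact hy
    · intro z _; simp
    · intro y _; simp
    · intro z _; rfl
  have hsum2 : ∀ i j, ∑ z ∈ W, I (z + x i) * I (z + x j) =
      V.card * corr A V (x i - x j) := by
    intro i j
    unfold corr
    rw [mul_div_cancel₀ _ hVc.ne', Finset.card_eq_sum_ones]
    push_cast
    have h1 : ∑ z ∈ W, I (z + x i) * I (z + x j) =
        ∑ z ∈ W.filter (fun z => z + x i ∈ A ∧ z + x j ∈ A), (1 : ℝ) := by
      rw [Finset.sum_filter]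
      refine Finset.sum_congr rfl fun z _ => ?_
      rw [hI, hI]
      by_cases h1 : z + x i ∈ A <;> by_cases h2 : z + x j ∈ A <;> simp [h1, h2]
    rw [h1]
    refine Finset.sum_bij' (fun z _ => z + x j) (fun y _ => y + -x j) ?_ ?_ ?_ ?_ ?_
    · intro z hz
      rw [Finset.mem_filter] at hz ⊢
      refine ⟨hz.2.2, ?_⟩
      have : z + x j + (x i - x j) = z + x i := by ring
      rw [this]
      exact hz.2.1
    · intro y hy
      rw [Finset.mem_filter] at hy ⊢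
      refine ⟨hW y (hA hy.1) _ (hS j), ?_, ?_⟩
      · have : y + -x j + x i = y + (x i - x j) := by ring
        rw [this]
        exact hy.2
      · rw [neg_add_cancel_right]
        exact hy.1
    · intro z _; simp
    · intro y _; simp
    · intro z _; rfl
  have hcs := sq_sum_le_card_mul_sum_sq (s := W) (f := fun z => ∑ l, a l * I (z + x l))
  have e1 : ∑ z ∈ W, ∑ l, a l * I (z + x l) = (∑ l, a l) * A.card := by
    rw [Finset.sum_comm, Finset.sum_mul]
    refine Finset.sum_congr rfl fun l _ => ?_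
    rw [← Finset.mul_sum, hsum1]
  have e2 : ∑ z ∈ W, (∑ l, a l * I (z + x l)) ^ 2 =
      V.card * ∑ i, ∑ j, a i * a j * corr A V (x i - x j) := by
    have h1 : ∀ z ∈ W, (∑ l, a l * I (z + x l)) ^ 2 =
        ∑ i, ∑ j, a i * a j * (I (z + x i) * I (z + x j)) := by
      intro z _
      rw [sq, Finset.sum_mul_sum]
      exact Finset.sum_congr rfl fun i _ => Finset.sum_congr rfl fun j _ => by ring
    rw [Finset.sum_congr rfl h1, Finset.sum_comm, Finset.mul_sum]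
    refine Finset.sum_congr rfl fun i _ => ?_
    rw [Finset.sum_comm, Finset.mul_sum]
    refine Finset.sum_congr rfl fun j _ => ?_
    rw [← Finset.mul_sum, hsum2]
    ring
  rw [e1, e2] at hcs
  set Q : ℝ := ∑ i, ∑ j, a i * a j * corr A V (x i - x j) with hQ
  have hQ0 : 0 ≤ Q := by
    have h1 : 0 ≤ (V.card : ℝ) * Q := by
      rw [← e2]
      exact Finset.sum_nonneg fun z _ => sq_nonneg _
    exact nonneg_of_mul_nonneg_right h1 hVc
  have h2 : ((∑ l, a l) * A.card) ^ 2 ≤ ((1 + η) * V.card) * (V.card * Q) :=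
    hcs.trans (mul_le_mul_of_nonneg_right hWc (by positivity))
  have h3 : (∑ l, a l) ^ 2 * corr A V 0 ^ 2 * (V.card : ℝ) ^ 2 = ((∑ l, a l) * A.card) ^ 2 := by
    rw [corr_zero]
    field_simp
  have h4 : (∑ l, a l) ^ 2 * corr A V 0 ^ 2 * (V.card : ℝ) ^ 2 ≤
      (1 + η) * Q * (V.card : ℝ) ^ 2 := by
    rw [h3]
    calc _ ≤ _ := h2
      _ = _ := by ring
  exact le_of_mul_le_mul_right h4 (by positivity)

/-- the density theorem in `ℚ(i)` -/
theorem density (J : ℕ) (hJ : 0 < J) (h : Fin J → ℚ) (hh0 : ∀ i, 0 < h i) (ε : ℝ) (hε : 0 < ε)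
    (hF : ∀ F : K → ℝ, IsPD F →
      -(1 + ε) ≤ ∑ i : Fin J, (2 : ℝ) ^ (i : ℕ) * F ((h i : ℚ) : K))
    (δ : ℝ) (hδ : 1 / 2 ^ J + ε < δ) :
    ∃ V : Finset K, V.Nonempty ∧ ∀ A : Finset K, A ⊆ V →
      (∀ x ∈ A, ∀ y ∈ A, ∀ i, ‖((x - y : K) : ℂ)‖ ≠ ‖(((h i : ℚ) : K) : ℂ)‖) →
      (A.card : ℝ) ≤ δ * V.card := by
  classical
  by_contra hcon
  push Not at hcon
  have hδ0 : 0 < δ := by
    have : (0 : ℝ) < 1 / 2 ^ J := by positivity
    linarith
  choose V W hVne hVW hWc using fun i : Finset K × ℕ =>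
    foelner i.1 (1 / ((i.2 : ℝ) + 1)) (by positivity)
  choose A hAV hAfree hAc using fun i : Finset K × ℕ => hcon (V i) (hVne i)
  let 𝒰 : Ultrafilter (Finset K × ℕ) := Ultrafilter.of atTop
  have h𝒰 : (𝒰 : Filter (Finset K × ℕ)) ≤ atTop := Ultrafilter.of_le _
  have hlim : ∀ v : K, ∃ g : ℝ, g ∈ Set.Icc (0 : ℝ) 1 ∧
      Tendsto (fun i => corr (A i) (V i) v) 𝒰 (𝓝 g) := by
    intro v
    obtain ⟨g, hg, hg2⟩ := isCompact_Icc.ultrafilter_le_nhds
      (𝒰.map (fun i => corr (A i) (V i) v)) (s := Set.Icc (0 : ℝ) 1) (by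
        rw [le_principal_iff, Ultrafilter.coe_map]
        exact Filter.mem_map.2 (Filter.univ_mem' fun i => corr_mem (hAV i) v))
    exact ⟨g, hg, hg2⟩
  choose G hG01 hG using hlim
  set μ : ℝ := G 0 with hμ
  have hμδ : δ ≤ μ := by
    refine ge_of_tendsto' (hG 0) fun i => ?_
    rw [corr_zero]
    have hVc : (0 : ℝ) < (V i).card := by exact_mod_cast Finset.card_pos.2 (hVne i)
    rw [le_div_iff₀ hVc]
    exact (hAc i).le
  have hμ0 : 0 < μ := lt_of_lt_of_le hδ0 hμδ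
  have hpsd : ∀ (m : ℕ) (x : Fin m → K) (a : Fin m → ℝ),
      0 ≤ ∑ i, ∑ j, a i * a j * (G (x i - x j) - μ ^ 2) := by
    intro m x a
    have h1 : Tendsto (fun i : Finset K × ℕ => (∑ l, a l) ^ 2 * corr (A i) (V i) 0 ^ 2) 𝒰
        (𝓝 ((∑ l, a l) ^ 2 * μ ^ 2)) := ((hG 0).pow 2).const_mul _
    have h2 : Tendsto (fun i : Finset K × ℕ => (1 + 1 / ((i.2 : ℝ) + 1)) *
        ∑ k, ∑ j, a k * a j * corr (A i) (V i) (x k - x j)) 𝒰
        (𝓝 ((1 + 0) * ∑ k, ∑ j, a k * a j * G (x k - x j))) := by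
      apply Tendsto.mul
      · apply Tendsto.const_add
        have h3 : Tendsto (fun i : Finset K × ℕ => i.2) atTop atTop := by
          rw [← prod_atTop_atTop_eq]
          exact tendsto_snd
        exact (tendsto_one_div_add_atTop_nhds_zero_nat.comp h3).mono_left h𝒰
      · refine tendsto_finsetSum _ fun k _ => tendsto_finsetSum _ fun j _ => ?_
        exact (hG _).const_mul _
    have h3 : (∑ l, a l) ^ 2 * μ ^ 2 ≤ (1 + 0) * ∑ k, ∑ j, a k * a j * G (x k - x j) := by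
      refine le_of_tendsto_of_tendsto h1 h2 ?_
      have h4 : ∀ᶠ i : Finset K × ℕ in atTop,
          (Finset.univ.image fun l => -x l, 0) ≤ i := eventually_ge_atTop _
      filter_upwards [h𝒰 h4] with i hi
      refine corr_psd (hAV i) (hVne i) (hVW i) (hWc i) x a ?_
      intro l
      exact hi.1 (Finset.mem_image.2 ⟨l, Finset.mem_univ _, rfl⟩)
    have h4 : ∑ i, ∑ j, a i * a j * (G (x i - x j) - μ ^ 2) =
        (∑ i, ∑ j, a i * a j * G (x i - x j)) - (∑ l, a l) ^ 2 * μ ^ 2 := by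
      have h5 : (∑ l, a l) ^ 2 * μ ^ 2 = ∑ i, ∑ j, a i * a j * μ ^ 2 := by
        rw [sq (∑ l, a l), Finset.sum_mul_sum, Finset.sum_mul]
        exact Finset.sum_congr rfl fun i _ => by rw [Finset.sum_mul]
      rw [h5, ← Finset.sum_sub_distrib]
      refine Finset.sum_congr rfl fun i _ => ?_
      rw [← Finset.sum_sub_distrib]
      exact Finset.sum_congr rfl fun j _ => by ring
    rw [h4]
    linarith
  have hzero : ∀ (v : K) (i : Fin J), ‖(v : ℂ)‖ = ‖(((h i : ℚ) : K) : ℂ)‖ → G v = 0 := by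
    intro v i hv
    have h1 : ∀ k, corr (A k) (V k) v = 0 := by
      intro k
      unfold corr
      have : ((A k).filter fun x => x + v ∈ A k) = ∅ := by
        rw [Finset.filter_eq_empty_iff]
        intro x hx hxv
        apply hAfree k (x + v) hxv x hx i
        rw [add_sub_cancel_left, hv]
      rw [this]
      simp
    have h2 : Tendsto (fun k => corr (A k) (V k) v) 𝒰 (𝓝 0) := by
      simp only [h1]
      exact tendsto_const_nhds
    exact tendsto_nhds_unique (hG v) h2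
  set Ψ : K → ℝ := fun v => G v - μ ^ 2 with hΨ
  have hμ1 : μ ≤ 1 := (hG01 0).2
  have hC : ∀ v, |Ψ v| ≤ 2 := by
    intro v
    have h1 := hG01 v
    rw [Set.mem_Icc] at h1
    have h2 : μ ^ 2 ≤ 1 := by nlinarith
    rw [hΨ, abs_le]
    constructor
    · simp only; nlinarith [h1.1]
    · simp only; nlinarith [h1.2, sq_nonneg μ]
  have hpair : μ ^ 2 ≤ μ / 2 := by
    have h1 := hpsd 2 ![0, ((h ⟨0, hJ⟩ : ℚ) : K)] ![1, 1]
    simp only [Fin.sum_univ_two, Matrix.cons_val_zero, Matrix.cons_val_one, sub_self, one_mul,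
      sub_zero, zero_sub] at h1
    rw [hzero ((h ⟨0, hJ⟩ : ℚ) : K) ⟨0, hJ⟩ rfl, hzero (-((h ⟨0, hJ⟩ : ℚ) : K)) ⟨0, hJ⟩ (by
      rw [show (((-((h ⟨0, hJ⟩ : ℚ) : K) : K)) : ℂ) = -((((h ⟨0, hJ⟩ : ℚ) : K) : K) : ℂ) from rfl,
        norm_neg])] at h1
    rw [← hμ] at h1
    linarith
  have hΨ0 : Ψ 0 = μ - μ ^ 2 := rfl
  have hpos : 0 < Ψ 0 := by rw [hΨ0]; linarith
  obtain ⟨Mt, t1, t2, t3, t4, t5⟩ := exists_mean Kˣ
  have ht : IsMean Mt := ⟨t1, t2, t3, t4, t5⟩
  have hk := hF (rav Ψ Mt) (rav_pd hC hpos hpsd ht)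
  have hval : ∀ i : Fin J, rav Ψ Mt ((h i : ℚ) : K) = -(μ ^ 2) * (Ψ 0)⁻¹ := by
    intro i
    unfold rav
    have h1 : ∀ t : Kˣ, Ψ (u t * ((h i : ℚ) : K)) = -(μ ^ 2) := by
      intro t
      show G _ - μ ^ 2 = _
      rw [hzero _ i, zero_sub]
      rw [show (((u t * ((h i : ℚ) : K) : K)) : ℂ) = (u t : ℂ) * (((h i : ℚ) : K) : ℂ) from rfl,
        norm_mul, u_norm, one_mul]
    simp only [h1]
    rw [ht.const]
  simp only [hval] at hk
  rw [← Finset.sum_mul] at hk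
  have hgeo : ∑ i : Fin J, (2 : ℝ) ^ (i : ℕ) = 2 ^ J - 1 := by
    rw [Fin.sum_univ_eq_sum_range (fun i => (2 : ℝ) ^ i), geom_sum_eq (by norm_num)]
    norm_num
  rw [hgeo, hΨ0] at hk
  have hd : 0 < μ - μ ^ 2 := by rw [← hΨ0]; exact hpos
  have h1 : (2 ^ J - 1) * μ ^ 2 ≤ (1 + ε) * (μ - μ ^ 2) := by
    have h2 : (2 ^ J - 1) * (-(μ ^ 2) * (μ - μ ^ 2)⁻¹) = -((2 ^ J - 1) * μ ^ 2 / (μ - μ ^ 2)) := by
      field_simp
    rw [h2] at hk
    have h3 : (2 ^ J - 1) * μ ^ 2 / (μ - μ ^ 2) ≤ 1 + ε := by linarith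
    rwa [div_le_iff₀ hd] at h3
  have h2 : (2 ^ J : ℝ) * μ ≤ 1 + ε := by
    have h3 : μ * ((2 ^ J - 1) * μ) ≤ μ * ((1 + ε) * (1 - μ)) := by nlinarith
    have h4 := le_of_mul_le_mul_left h3 hμ0
    nlinarith
  have h2J : (1 : ℝ) ≤ 2 ^ J := one_le_pow₀ (by norm_num)
  have h3 : μ ≤ 1 / 2 ^ J + ε := by
    have h4 : μ ≤ (1 + ε) / 2 ^ J := by
      rw [le_div_iff₀ (by positivity)]
      linarith
    have h5 : (1 + ε) / 2 ^ J ≤ 1 / 2 ^ J + ε := by
      rw [add_div]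
      have : ε / 2 ^ J ≤ ε := div_le_self hε.le h2J
      linarith
    linarith
  linarith

end Pool.Agent.Y357.PD
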