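import Mathlib
import Pool.Agent.Helper378.PD.Base
import Pool.Agent.Helper378.PD.Final
import Pool.Agent.Y357.PD.Dens

/-!
# The density theorem in the plane
-/

set_option autoImplicit false

namespace Pool.Agent.Y357.PD

open Pool.Agent.Helper378.PD

theorem plane_density (k : ℕ) (ε : ℝ) (hε : 0 < ε) :
    ∃ H : Finset ℚ, H.card = k ∧ (∀ h ∈ H, 0 < h) ∧
      ∃ V : Finset (EuclideanSpace ℝ (Fin 2)), V.Nonempty ∧
        (∀ v ∈ V, ∀ i, ∃ r : ℚ, v i = r) ∧
        ∀ A : Set (EuclideanSpace ℝ (Fin 2)),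
          (∀ x ∈ A, ∀ y ∈ A, ∀ h ∈ H, dist x y ≠ (h : ℝ)) →
          ∀ x, ({v | v ∈ V ∧ x + v ∈ A}.ncard : ℝ) ≤ (1 / 2 ^ k + ε) * V.card := by
  classical
  rcases Nat.eq_zero_or_pos k with hk | hk
  · subst hk
    refine ⟨∅, rfl, by simp, {0}, by simp, ?_, ?_⟩
    · intro v hv i
      rw [Finset.mem_singleton] at hv
      exact ⟨0, by rw [hv]; simp⟩
    · intro A _ x
      have h1 : {v : EuclideanSpace ℝ (Fin 2) | v ∈ ({0} : Finset _) ∧ x + v ∈ A}.ncard ≤ 1 := by
        refine (Set.ncard_le_ncard (t := {0}) ?_ (Set.finite_singleton _)).trans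
          (Set.ncard_singleton _).le
        intro v hv
        simpa using hv.1
      have h2 : ({v : EuclideanSpace ℝ (Fin 2) | v ∈ ({0} : Finset _) ∧ x + v ∈ A}.ncard : ℝ) ≤ 1 := by
        exact_mod_cast h1
      have h3 : (1 / 2 ^ 0 + ε) * ((({0} : Finset (EuclideanSpace ℝ (Fin 2))).card : ℕ) : ℝ) =
          1 + ε := by
        rw [Finset.card_singleton]; norm_num
      rw [h3]
      linarith
  · obtain ⟨h, hh0, hhi, hF⟩ := key k (ε / 2) (by positivity)
    obtain ⟨V, hV, hVA⟩ := density k hk h hh0 (ε / 2) (by positivity) hF (1 / 2 ^ k + ε)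
      (by linarith)
    set P := Complex.orthonormalBasisOneI.repr with hP
    have hPinj : Function.Injective (fun z : K => P (z : ℂ)) := by
      intro z w hzw
      exact Subtype.ext (P.injective hzw)
    refine ⟨Finset.univ.image h, ?_, ?_, V.image (fun z : K => P (z : ℂ)), hV.image _, ?_, ?_⟩
    · rw [Finset.card_image_of_injective _ hhi]; simp
    · intro x hx
      obtain ⟨i, -, rfl⟩ := Finset.mem_image.1 hx
      exact hh0 i
    · intro v hv i
      obtain ⟨z, -, rfl⟩ := Finset.mem_image.1 hv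
      obtain ⟨z, a, b, rfl⟩ := z
      simp only [hP, Complex.orthonormalBasisOneI_repr_apply]
      fin_cases i
      · exact ⟨a, by simp⟩
      · exact ⟨b, by simp⟩
    · intro A hA x
      have h1 : {v | v ∈ V.image (fun z : K => P (z : ℂ)) ∧ x + v ∈ A} =
          ((V.filter fun z : K => x + P (z : ℂ) ∈ A).image (fun z : K => P (z : ℂ)) : Finset _) := by
        ext v
        simp only [Set.mem_ofPred_eq, Finset.coe_image, Set.mem_image, Finset.mem_coe,
          Finset.mem_filter, Finset.mem_image]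
        constructor
        · rintro ⟨⟨z, hz, rfl⟩, hv⟩
          exact ⟨z, ⟨hz, hv⟩, rfl⟩
        · rintro ⟨z, ⟨hz, hv⟩, rfl⟩
          exact ⟨⟨z, hz, rfl⟩, hv⟩
      rw [h1, Set.ncard_coe_finset, Finset.card_image_of_injective _ hPinj,
        Finset.card_image_of_injective _ hPinj]
      refine hVA _ (Finset.filter_subset _ _) ?_
      intro z hz w hw i hzw
      rw [Finset.mem_filter] at hz hw
      apply hA _ hz.2 _ hw.2 (h i) (Finset.mem_image.2 ⟨i, Finset.mem_univ _, rfl⟩)
      rw [dist_add_left, LinearIsometryEquiv.dist_map, dist_eq_norm]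
      have e1 : (z : ℂ) - w = ((z - w : K) : ℂ) := rfl
      have e2 : (((h i : ℚ) : K) : ℂ) = ((h i : ℝ) : ℂ) := by simp
      rw [e1, hzw, e2, Complex.norm_real, Real.norm_of_nonneg (by exact_mod_cast (hh0 i).le)]

end Pool.Agent.Y357.PD
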